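import Pool.Agent.H35Z.Cuf.Bridge

/-!
# Compact Hausdorff non-scattered weakly Loeb spaces with a cuf base have at least continuum many
points, without choice

We prove the statement in an arbitrary, possibly nonstandard, model of Zermelo set theory without
choice; by the completeness theorem it is then a theorem of that theory, hence of ZF.

Outline. The multiple choice function and the cuf base split every nonempty perfect set `P`, in a
definable way, into two disjoint nonempty perfect subsets. Let `D` be a well-ordered family of
perfect sets closed under this splitting. Along a Cantor scheme in `D` we choose at level `n` a set
that decides, for each of the finitely many basic sets `V` of level `n`, whether all smaller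
members of `D` meet `V` and whether they all meet two fixed disjoint closed subsets of `V`. If a
limit set of the scheme has an isolated point, then all nearby limit sets meet a fixed basic set in
exactly one point, which gives the injection. Otherwise the limit set is perfect, and it cannot
belong to `D`; adding it again and again contradicts the Bourbaki-Witt theorem.
-/

namespace Pool.Agent.Results.MP_bce22b_lc.ContinuumInjects

open Pool.Agent.H35Z.SetTop

universe u

/-- In every model of Zermelo set theory (in particular in every model of ZF), the real line
injects in every compact Hausdorff non-scattered weakly Loeb space with a cuf base. -/
theorem result (M : Type u) [LSet.Structure M] [Zermelo M] (X τ : M) (hτ : IsTopology X τ)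
    (hc : IsCompactSpace X τ) (hh : IsHausdorff X τ) (hs : ¬ IsScattered X τ)
    (hl : IsWeaklyLoeb X τ) (hb : HasCufBase τ) (R : M)
    (hR : IsRealField R ∨ IsPowerOfOmega R) : ∃ g : M, IsInj g R X :=
  main hτ hc hh hs hl hb R hR

end Pool.Agent.Results.MP_bce22b_lc.ContinuumInjects
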